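import Mathlib
import Pool.Agent.Helper94_DMI.Stmts

/-!
# DMI: TAIL, FSUM, LSC
-/

set_option autoImplicit false

namespace Pool.Agent.DMI.H3

open Set Topology TopologicalSpace Filter Pool.Agent.DMI

theorem w_pos (i : ℕ) : 0 < w i := by unfold w; positivity

theorem w_le (i : ℕ) : w i ≤ 1 / 2 := by
  unfold w
  calc (1 / 2 : ℝ) ^ (i.unpair.1 + 1) ≤ (1 / 2 : ℝ) ^ 1 :=
        pow_le_pow_of_le_one (by norm_num) (by norm_num) (by omega)
    _ = 1 / 2 := by norm_num

theorem wt_nonneg (z : ℕ → Bool) (i : ℕ) : 0 ≤ wt z i := by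
  unfold wt
  split_ifs
  · exact (w_pos i).le
  · exact le_refl _

theorem ps_le_nrm (z : Z) (k : ℕ) : ps z.1 k ≤ nrm z :=
  z.2.sum_le_tsum (Finset.range k) (fun i _ => wt_nonneg z.1 i)

theorem ps_mono (z : ℕ → Bool) {k k' : ℕ} (h : k ≤ k') : ps z k ≤ ps z k' :=
  Finset.sum_le_sum_of_subset_of_nonneg (Finset.range_mono h) (fun i _ _ => wt_nonneg z i)

theorem tail : TailStmt := by
  refine ⟨fun z k => ?_, fun z k k' h => ?_, fun z => ?_, fun z => ?_⟩
  · have := ps_le_nrm z k
    unfold tl
    linarith
  · have := ps_mono z.1 h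
    unfold tl
    linarith
  · simp [tl, ps]
  · have h1 : Tendsto (fun k => ps z.1 k) atTop (𝓝 (nrm z)) := z.2.hasSum.tendsto_sum_nat
    have h2 : Tendsto (fun k => nrm z - ps z.1 k) atTop (𝓝 (nrm z - nrm z)) :=
      tendsto_const_nhds.sub h1
    rw [sub_self] at h2
    exact h2

theorem lam_nonneg (s : ℝ) : 0 ≤ lam s := le_max_left _ _

theorem lam_le_one (s : ℝ) : lam s ≤ 1 := max_le zero_le_one (min_le_left _ _)

theorem lam_lip (s t : ℝ) : |lam s - lam t| ≤ |s - t| := by
  unfold lam
  calc |max 0 (min 1 (2 - s)) - max 0 (min 1 (2 - t))|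
      ≤ |min 1 (2 - s) - min 1 (2 - t)| := by
        have := abs_max_sub_max_le_abs (min 1 (2 - s)) (min 1 (2 - t)) (0 : ℝ)
        rw [max_comm 0 (min 1 (2 - s)), max_comm 0 (min 1 (2 - t))]
        exact this
    _ ≤ |(2 - s) - (2 - t)| := by
        have h := abs_min_sub_min_le_max (1 : ℝ) (2 - s) 1 (2 - t)
        simpa using h
    _ = |s - t| := by
        rw [show (2 - s) - (2 - t) = -(s - t) by ring, abs_neg]

theorem lam_cont : Continuous lam := by
  unfold lam
  fun_prop

theorem ft_nonneg (D : Dat) (a : A) (y : M) (i : ℕ) : 0 ≤ ft D a y i := by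
  unfold ft
  split_ifs
  · exact mul_nonneg (w_pos i).le (lam_nonneg _)
  · exact le_refl _

theorem ft_le (D : Dat) (a : A) (y : M) (i : ℕ) : ft D a y i ≤ wt y.2.2.1 i := by
  unfold ft
  split_ifs with h
  · unfold wt
    rw [if_pos h.2.1]
    exact mul_le_of_le_one_right (w_pos i).le (lam_le_one _)
  · exact wt_nonneg _ _

theorem ft_summable (D : Dat) (a : A) (y : M) : Summable (ft D a y) :=
  Summable.of_nonneg_of_le (ft_nonneg D a y) (ft_le D a y) y.2.2.2

theorem fsum : FSumStmt := fun D a y => ⟨ft_summable D a y, ft_nonneg D a y, ft_le D a y⟩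

/-- `l` is continuous -/
theorem l_cont (D : Dat) : Continuous D.l := by
  rw [continuous_iff_continuousAt]
  intro z
  rw [Metric.continuousAt_iff']
  intro ε hε
  obtain ⟨n, hn⟩ := exists_pow_lt_of_lt_one hε (show (1 / 8 : ℝ) < 1 by norm_num)
  obtain ⟨j, hj, hnj, _⟩ := D.full 0 n
  have hej : eta j < ε := by
    unfold eta
    calc (1 / 8 : ℝ) ^ (j + 1) ≤ (1 / 8 : ℝ) ^ n :=
          pow_le_pow_of_le_one (by norm_num) (by norm_num) (by omega)
      _ < ε := hn
  have hopen : ∀ᶠ z' in 𝓝 z, ∀ i ∈ Finset.range (j + 1), z' i = z i := by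
    rw [Filter.eventually_all_finset]
    intro i _
    have : IsOpen {z' : ℕ → Bool | z' i = z i} := by
      have h := (continuous_apply i : Continuous (fun z' : ℕ → Bool => z' i))
      exact h.isOpen_preimage {z i} (isOpen_discrete _)
    exact this.mem_nhds rfl
  filter_upwards [hopen] with z' hz'
  rw [Real.dist_eq]
  refine lt_of_le_of_lt (D.mod j hj z' z ?_) hej
  intro i _ hij
  exact hz' i (Finset.mem_range.2 (by omega))

theorem isOpen_agr (k : ℕ) (b : ℕ → Bool) : IsOpen {z : ℕ → Bool | agr k z b} := by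
  have : {z : ℕ → Bool | agr k z b} = ⋂ i ∈ Finset.range k, {z : ℕ → Bool | z i = b i} := by
    ext z
    simp [agr]
  rw [this]
  refine isOpen_biInter_finset fun i _ => ?_
  have h := (continuous_apply i : Continuous (fun z' : ℕ → Bool => z' i))
  exact h.isOpen_preimage {b i} (isOpen_discrete _)

theorem agr_symm {k : ℕ} {a b : ℕ → Bool} (h : agr k a b) : agr k b a := fun i hi => (h i hi).symm

theorem agr_trans {k : ℕ} {a b c : ℕ → Bool} (h : agr k a b) (h' : agr k b c) : agr k a c :=
  fun i hi => (h i hi).trans (h' i hi)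

/-- each term is a continuous function of `y` -/
theorem ft_cont (D : Dat) (a : A) (i : ℕ) : Continuous (fun y : M => ft D a y i) := by
  classical
  have hl : Continuous (fun y : M => D.l y.2.2.1) :=
    (l_cont D).comp (continuous_subtype_val.comp (continuous_snd.comp continuous_snd))
  have hg : Continuous (fun y : M => w i * lam ((2 : ℝ) ^ i * |y.1 - D.l y.2.2.1|)) := by
    refine continuous_const.mul (lam_cont.comp (continuous_const.mul ?_))
    exact (continuous_fst.sub hl).abs
  have hc : IsClopen {y : M | i ∈ D.J ∧ y.2.2.1 i = true ∧ agr i y.2.1 a} := by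
    by_cases hi : i ∈ D.J
    · have h1 : IsClopen {y : M | y.2.2.1 i = true} := by
        have h := ((continuous_apply i).comp
          (continuous_subtype_val.comp (continuous_snd.comp continuous_snd)) :
          Continuous (fun y : M => y.2.2.1 i))
        exact ⟨(isClosed_discrete {true}).preimage h, (isOpen_discrete {true}).preimage h⟩
      have h2 : IsClopen {y : M | agr i y.2.1 a} := by
        have h2' : ∀ q, IsClopen {y : M | y.2.1 q = a q} := by
          intro q
          have h := ((continuous_apply q).comp (continuous_fst.comp continuous_snd) :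
            Continuous (fun y : M => y.2.1 q))
          exact ⟨(isClosed_discrete {a q}).preimage h, (isOpen_discrete {a q}).preimage h⟩
        have : {y : M | agr i y.2.1 a} = ⋂ q ∈ Finset.range i, {y : M | y.2.1 q = a q} := by
          ext y
          simp [agr]
        rw [this]
        exact isClopen_biInter_finset fun q _ => h2' q
      have : {y : M | i ∈ D.J ∧ y.2.2.1 i = true ∧ agr i y.2.1 a} =
          {y : M | y.2.2.1 i = true} ∩ {y : M | agr i y.2.1 a} := by
        ext y
        simp [hi]
      rw [this]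
      exact h1.inter h2
    · have : {y : M | i ∈ D.J ∧ y.2.2.1 i = true ∧ agr i y.2.1 a} = ∅ := by
        ext y
        simp [hi]
      rw [this]
      exact isClopen_empty
  have heq : (fun y : M => ft D a y i) =
      {y : M | i ∈ D.J ∧ y.2.2.1 i = true ∧ agr i y.2.1 a}.indicator
        (fun y : M => w i * lam ((2 : ℝ) ^ i * |y.1 - D.l y.2.2.1|)) := by
    funext y
    unfold ft Set.indicator
    simp only [Set.mem_setOf_eq]
  rw [heq]
  refine hg.indicator ?_
  intro y hy
  rw [hc.frontier_eq] at hy
  exact absurd hy (Set.notMem_empty y)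

theorem lsc : LscStmt := by
  intro D a y c hc
  -- choose a partial sum larger than c
  have h1 : Tendsto (fun n => ∑ i ∈ Finset.range n, ft D a y i) atTop (𝓝 (f D a y)) :=
    (ft_summable D a y).hasSum.tendsto_sum_nat
  obtain ⟨n, hn⟩ := (h1.eventually (lt_mem_nhds hc)).exists
  have h2 : Continuous (fun y : M => ∑ i ∈ Finset.range n, ft D a y i) :=
    continuous_finset_sum _ fun i _ => ft_cont D a i
  filter_upwards [h2.continuousAt.eventually (lt_mem_nhds hn)] with y' hy'
  exact lt_of_lt_of_le hy' ((ft_summable D a y').sum_le_tsum _ (fun i _ => ft_nonneg D a y' i))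

end Pool.Agent.DMI.H3
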