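import Mathlib
import Pool.Agent.Helper3_DMI.Basic

/-!
# DMI: LCONT, GRV
-/

set_option autoImplicit false

namespace Pool.Agent.DMI.H3

open Set Topology TopologicalSpace Filter Pool.Agent.DMI

theorem lcont : LContStmt := by
  refine ⟨l_cont, fun D a => ?_⟩
  have hl : Continuous (fun y : M => D.l y.2.2.1) :=
    (l_cont D).comp (continuous_subtype_val.comp (continuous_snd.comp continuous_snd))
  have h1 : IsClosed {y : M | y.2.1 = a} :=
    isClosed_eq (continuous_fst.comp continuous_snd) continuous_const
  have h2 : IsClosed {y : M | y.1 = D.l y.2.2.1} := isClosed_eq continuous_fst hl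
  exact h1.inter h2

theorem grv : GrvStmt := by
  intro D a z hz
  unfold f nrm
  refine tsum_congr fun i => ?_
  unfold ft wt
  by_cases hi : z.1 i = true
  · have h1 : i ∈ D.J ∧ z.1 i = true ∧ agr i a a := ⟨hz i hi, hi, fun _ _ => rfl⟩
    rw [if_pos h1, if_pos hi]
    simp [lam]
  · simp [hi]

end Pool.Agent.DMI.H3
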